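import Pool.Agent.MP_670f9a_nt.H13.Spec2

/-!
The energy inequality: the mean over two slices of the pointwise bound for their resultant.
-/

namespace Pool.Agent.MP_670f9a_nt.H6Energy

open Pool.Agent.MP_670f9a_nt.NP
open Polynomial Real Finset Filter Topology MeasureTheory
open scoped ComplexConjugate

/-- Monotonicity of circle averages off a finite set. -/
theorem avg_mono {f g : ℂ → ℝ} {S : Set ℂ} (hS : S.Finite) (hf : CircleIntegrable f 0 1)
    (hg : CircleIntegrable g 0 1) (h : ∀ z ∉ S, f z ≤ g z) :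
    circleAverage f 0 1 ≤ circleAverage g 0 1 := by
  rw [circleAverage, circleAverage, smul_eq_mul, smul_eq_mul]
  refine mul_le_mul_of_nonneg_left ?_ (inv_nonneg.2 two_pi_pos.le)
  refine intervalIntegral.integral_mono_ae two_pi_pos.le hf hg ?_
  have hc : (circleMap 0 1 ⁻¹' S).Countable := hS.countable.preimage_circleMap 0 one_ne_zero
  filter_upwards [hc.ae_notMem volume] with θ hθ
  exact h _ hθ

/-- The real linear form `w ↦ t * Re (a * conj w)`. -/
noncomputable def lf (t : ℝ) (a : ℂ) : ℂ →L[ℝ] ℝ :=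
  (t * a.re) • Complex.reCLM + (t * a.im) • Complex.imCLM

theorem lf_apply (t : ℝ) (a w : ℂ) : lf t a w = t * (a * conj w).re := by
  simp [lf]; ring

theorem key {f ψ : ℂ → ℝ} {c : ℕ → ℂ → ℂ} (a : ℕ → ℂ) (w : ℕ → ℝ) (s : Finset ℕ) (B d : ℝ)
    {S : Set ℂ} (hS : S.Finite) (hf : CircleIntegrable f 0 1) (hψ : CircleIntegrable ψ 0 1)
    (hc : ∀ r, CircleIntegrable (c r) 0 1)
    (h : ∀ z ∉ S, f z ≤ B + d * ψ z - ∑ r ∈ s, w r * (a r * conj (c r z)).re) :
    circleAverage f 0 1 ≤ B + d * circleAverage ψ 0 1 -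
      ∑ r ∈ s, w r * (a r * conj (circleAverage (c r) 0 1)).re := by
  have hi : ∀ r, CircleIntegrable (fun z => lf (w r) (a r) (c r z)) 0 1 := fun r =>
    ⟨(lf (w r) (a r)).integrable_comp (hc r).1, (lf (w r) (a r)).integrable_comp (hc r).2⟩
  have h1 : CircleIntegrable (fun z => d * ψ z) 0 1 := IntervalIntegrable.const_mul hψ d
  have h2 : CircleIntegrable (fun z => B + d * ψ z) 0 1 :=
    (circleIntegrable_const B 0 1).fun_add h1
  have h3 : CircleIntegrable (fun z => ∑ r ∈ s, lf (w r) (a r) (c r z)) 0 1 :=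
    CircleIntegrable.fun_sum s fun r _ => hi r
  have h4 := avg_mono hS hf (h2.fun_sub h3) (fun z hz => by
    simpa only [lf_apply] using h z hz)
  rw [circleAverage_fun_sub h2 h3, circleAverage_fun_add (circleIntegrable_const B 0 1) h1,
    circleAverage_const, circleAverage_fun_sum (fun r _ => hi r)] at h4
  have h5 : circleAverage (fun z => d * ψ z) 0 1 = d * circleAverage ψ 0 1 :=
    circleAverage_fun_smul (a := d) (f := ψ)
  rw [h5] at h4
  refine h4.trans (le_of_eq ?_)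
  congr 1
  refine Finset.sum_congr rfl fun r _ => ?_
  rw [← lf_apply]
  exact (lf (w r) (a r)).circleAverage_comp_comm (hc r)

theorem re_mul_conj_comm (a b : ℂ) : (a * conj b).re = (b * conj a).re := by
  simp; ring

/-- The inequality at a fixed radius and a fixed truncation. -/
theorem step (h1 : SFC) (h2 : SFub) (h3 : SAdd) (h5 : SPt) (F R : ℤ[X][X]) (hF : F ≠ 0)
    (hR : R ≠ 0) (d : ℕ) (T : Finset ℂ)
    (hT : ∀ y ∉ T, (toC F).eval (C y) ≠ 0 ∧ ((toC F).eval (C y)).natDegree = d)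
    (hres : ∀ y z : ℂ, (toC R).evalEval y z =
      resultant ((toC F).eval (C y)) ((toC F).eval (C z)) d d)
    (N : ℕ) (ρ : ℝ) (h0 : 0 < ρ) (hρ : ρ < 1) :
    ∑ r ∈ Icc 1 N, 4 * r * ρ ^ r * ‖fc (Phi (toC F)) r‖ ^ 2 ≤
      2 * d * m2 (toC F) + (d : ℝ) ^ 2 * (log (2 / (1 + ρ)) + ρ ^ N / (1 - ρ)) := by
  obtain ⟨-, -, -, -, hA⟩ := h3
  obtain ⟨hH, -⟩ := hA F hF
  obtain ⟨hG, hG0⟩ := hA R hR
  set H := toC F with hHdef
  set G := toC R with hGdef
  obtain ⟨-, hPsi, hm, hfc⟩ := h2 H hH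
  obtain ⟨hPhiG, -, -, -⟩ := h2 G hG
  set E : ℝ := (d : ℝ) ^ 2 * (log (2 / (1 + ρ)) + ρ ^ N / (1 - ρ)) with hE
  set c : ℕ → ℂ → ℂ := fun r v => fc (fun u => log ‖H.evalEval u v‖) r with hc
  have hps : ∀ v ∉ T, ∀ r : ℕ, 1 ≤ r → ps (H.eval (C v)) r = -(2 * r) * c r v := by
    intro v hv r hr
    have := h1 (H.eval (C v)) r (hT v hv).1 hr
    have hr0 : (r : ℂ) ≠ 0 := by exact_mod_cast (by omega : r ≠ 0)
    have h' : c r v = -ps (H.eval (C v)) r / (2 * r) := this
    rw [h']; field_simp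
  have hl : G.leadingCoeff ≠ 0 := leadingCoeff_ne_zero.2 hG
  -- mean in the outer variable
  have hz : ∀ y, y ∉ ((T : Set ℂ) ∪ (G.leadingCoeff.roots.toFinset : Set ℂ)) →
      Phi G y ≤ (E + d * m2 H) + d * Psi H y -
        ∑ r ∈ Icc 1 N, (4 * r * ρ ^ r) * (fc (Phi H) r * conj (c r y)).re := by
    intro y hy
    simp only [Set.mem_union, Finset.mem_coe, Multiset.mem_toFinset, not_or] at hy
    obtain ⟨hyT, hyl⟩ := hy
    have hyl' : G.leadingCoeff.eval y ≠ 0 := fun h => hyl ((mem_roots hl).2 h)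
    have hGy : G.map (evalRingHom y) ≠ 0 := by
      intro h
      apply hyl'
      have := congrArg (fun p : ℂ[X] => p.coeff G.natDegree) h
      simpa [coeff_map] using this
    have hint : CircleIntegrable (fun z => log ‖G.evalEval y z‖) 0 1 := by
      have := intervalIntegrable_mahlerMeasure (G.map (evalRingHom y))
      simp only [map_evalRingHom_eval] at this
      exact this
    have hk := key (f := fun z => log ‖G.evalEval y z‖) (ψ := Psi H) (c := c)
      (fun r => c r y) (fun r => 4 * r * ρ ^ r) (Icc 1 N) (E + d * Psi H y) d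
      (S := (T : Set ℂ) ∪ ((G.map (evalRingHom y)).roots.toFinset : Set ℂ))
      (Set.Finite.union (Finset.finite_toSet _) (Finset.finite_toSet _)) hint hPsi
      (fun r => (hfc r).1) (by
        intro z hz
        simp only [Set.mem_union, Finset.mem_coe, Multiset.mem_toFinset, not_or] at hz
        obtain ⟨hzT, hzl⟩ := hz
        have hne : G.evalEval y z ≠ 0 := by
          intro h
          apply hzl
          rw [mem_roots hGy, IsRoot.def, map_evalRingHom_eval]
          exact h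
        have hp := h5 (H.eval (C y)) (H.eval (C z)) d N ρ (hT y hyT).1 (hT z hzT).1
          (hT y hyT).2 (hT z hzT).2 (by rw [← hres]; exact hne) h0 hρ
        rw [← hres] at hp
        have hs : ∑ r ∈ Icc 1 N, ρ ^ r / r *
              (ps (H.eval (C y)) r * conj (ps (H.eval (C z)) r)).re =
            ∑ r ∈ Icc 1 N, 4 * r * ρ ^ r * (c r y * conj (c r z)).re := by
          refine Finset.sum_congr rfl fun r hr => ?_
          have hr1 : 1 ≤ r := (Finset.mem_Icc.1 hr).1
          have hr0 : (r : ℝ) ≠ 0 := by exact_mod_cast (by omega : r ≠ 0)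
          rw [hps y hyT r hr1, hps z hzT r hr1]
          have : (-(2 * (r : ℂ)) * c r y * conj (-(2 * (r : ℂ)) * c r z)) =
              ((4 * (r : ℝ) ^ 2 : ℝ) : ℂ) * (c r y * conj (c r z)) := by
            simp only [map_mul, map_neg, map_natCast, map_ofNat]
            push_cast; ring
          rw [this, Complex.re_ofReal_mul]
          field_simp
        rw [hs] at hp
        have e1 : (H.eval (C y)).logMahlerMeasure = Psi H y := rfl
        have e2 : (H.eval (C z)).logMahlerMeasure = Psi H z := rfl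
        rw [e1, e2] at hp
        show log ‖G.evalEval y z‖ ≤ _
        linarith)
    have hs : ∑ r ∈ Icc 1 N, 4 * r * ρ ^ r * (c r y * conj (circleAverage (c r) 0 1)).re =
        ∑ r ∈ Icc 1 N, 4 * r * ρ ^ r * (fc (Phi H) r * conj (c r y)).re := by
      refine Finset.sum_congr rfl fun r _ => ?_
      rw [re_mul_conj_comm, show circleAverage (c r) 0 1 = fc (Phi H) r from (hfc r).2]
    rw [hs, hm] at hk
    have e3 : Phi G y = circleAverage (fun z => log ‖G.evalEval y z‖) 0 1 := rfl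
    rw [e3]
    linarith
  have hk := key (f := Phi G) (ψ := Psi H) (c := c) (fun r => fc (Phi H) r)
    (fun r => 4 * r * ρ ^ r) (Icc 1 N) (E + d * m2 H) d
    (Set.Finite.union (Finset.finite_toSet _) (Finset.finite_toSet _)) hPhiG hPsi
    (fun r => (hfc r).1) hz
  have hs : ∑ r ∈ Icc 1 N, 4 * r * ρ ^ r *
        (fc (Phi H) r * conj (circleAverage (c r) 0 1)).re =
      ∑ r ∈ Icc 1 N, 4 * r * ρ ^ r * ‖fc (Phi H) r‖ ^ 2 := by
    refine Finset.sum_congr rfl fun r _ => ?_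
    rw [show circleAverage (c r) 0 1 = fc (Phi H) r from (hfc r).2, Complex.mul_conj,
      Complex.ofReal_re, Complex.normSq_eq_norm_sq]
  rw [hs, hm] at hk
  have e4 : circleAverage (Phi G) 0 1 = m2 G := rfl
  rw [e4] at hk
  linarith

theorem sEnergy (h1 : SFC) (h2 : SFub) (h3 : SAdd) (h4 : SRes) (h5 : SPt) : SEnergy := by
  intro F L N hL hu
  have hF : F ≠ 0 := by
    rintro rfl
    obtain ⟨v, hv⟩ := hu 0
    exact hv (by simp [toC])
  have hm0 : 0 ≤ m2 (toC F) := (h3.2.2.2.2 F hF).2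
  obtain ⟨d, R, T, hd, hR, hT, hres⟩ := h4 F L hL hu
  set x : ℕ → ℝ := fun r => ‖fc (Phi (toC F)) r‖ ^ 2 with hx
  have hA : ∀ ρ : ℝ, 0 < ρ → ρ < 1 → ∑ r ∈ Icc 1 N, 4 * r * ρ ^ r * x r ≤
      2 * d * m2 (toC F) + (d : ℝ) ^ 2 * (log (2 / (1 + ρ)) + 0 / (1 - ρ)) := by
    intro ρ h0 hρ
    have ht : Tendsto (fun n : ℕ => 2 * d * m2 (toC F) +
        (d : ℝ) ^ 2 * (log (2 / (1 + ρ)) + ρ ^ n / (1 - ρ))) atTop
        (𝓝 (2 * d * m2 (toC F) + (d : ℝ) ^ 2 * (log (2 / (1 + ρ)) + 0 / (1 - ρ)))) :=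
      tendsto_const_nhds.add (tendsto_const_nhds.mul (tendsto_const_nhds.add
        ((tendsto_pow_atTop_nhds_zero_of_lt_one h0.le hρ).div_const _)))
    refine ge_of_tendsto ht ?_
    filter_upwards [eventually_ge_atTop N] with n hn
    refine le_trans ?_ (step h1 h2 h3 h5 F R hF hR d T hT hres n ρ h0 hρ)
    refine Finset.sum_le_sum_of_subset_of_nonneg (Finset.Icc_subset_Icc_right hn) ?_
    intro r _ _
    positivity
  have hB : ∑ r ∈ Icc 1 N, 4 * r * (1 : ℝ) ^ r * x r ≤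
      2 * d * m2 (toC F) + (d : ℝ) ^ 2 * log (2 / (1 + 1)) := by
    have t1 : Tendsto (fun ρ : ℝ => ∑ r ∈ Icc 1 N, 4 * r * ρ ^ r * x r) (𝓝[<] 1)
        (𝓝 (∑ r ∈ Icc 1 N, 4 * r * (1 : ℝ) ^ r * x r)) := by
      refine Tendsto.mono_left (Continuous.tendsto ?_ 1) nhdsWithin_le_nhds
      fun_prop
    have t2 : Tendsto (fun ρ : ℝ => 2 * d * m2 (toC F) + (d : ℝ) ^ 2 * log (2 / (1 + ρ)))
        (𝓝[<] 1) (𝓝 (2 * d * m2 (toC F) + (d : ℝ) ^ 2 * log (2 / (1 + 1)))) := by
      refine Tendsto.mono_left (ContinuousAt.tendsto ?_) nhdsWithin_le_nhds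
      refine continuousAt_const.add (continuousAt_const.mul (ContinuousAt.log ?_ (by norm_num)))
      exact continuousAt_const.div (continuousAt_const.add continuousAt_id) (by norm_num)
    refine le_of_tendsto_of_tendsto t1 t2 ?_
    filter_upwards [Ioo_mem_nhdsLT (zero_lt_one' ℝ)] with ρ hρ
    simpa using hA ρ hρ.1 hρ.2
  have hC : ∑ r ∈ Icc 1 N, 4 * r * (1 : ℝ) ^ r * x r = 4 * ∑ r ∈ Icc 1 N, r * x r := by
    rw [Finset.mul_sum]
    refine Finset.sum_congr rfl fun r _ => ?_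
    rw [one_pow]; ring
  rw [hC, show (2 : ℝ) / (1 + 1) = 1 by norm_num, log_one, mul_zero, add_zero] at hB
  have hdL : (d : ℝ) ≤ L := by exact_mod_cast hd
  have := mul_le_mul_of_nonneg_right hdL hm0
  show ∑ r ∈ Icc 1 N, r * x r ≤ L * m2 (toC F) / 2
  linarith

end Pool.Agent.MP_670f9a_nt.H6Energy
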