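import Mathlib

/-!
Products over complex embeddings, Mahler measures and a balancing lemma.
-/

namespace Pool.Agent.MP_670f9a_nt.H6

open Polynomial IntermediateField NumberField Module

lemma prod_place {K : Type*} [Field K] [NumberField K] (g : InfinitePlace K → ℝ) :
    ∏ w, g w ^ w.mult = ∏ τ : K →+* ℂ, g (InfinitePlace.mk τ) := by
  classical
  rw [← Finset.prod_fiberwise Finset.univ InfinitePlace.mk (fun φ => g (InfinitePlace.mk φ))]
  refine Finset.prod_congr rfl fun w _ => ?_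
  rw [Finset.prod_congr rfl (g := fun _ => g w) fun φ hφ => by rw [(Finset.mem_filter.mp hφ).2],
    Finset.prod_const, InfinitePlace.card_filter_mk_eq]

lemma balance {K : Type*} [Field K] [NumberField K] : ∃ A : ℝ, 1 ≤ A ∧
    ∀ (θ : K) (r : ℝ), 0 < r → r ^ finrank ℚ K = ∏ τ : K →+* ℂ, max 1 ‖τ θ‖ → ∀ N : ℕ,
      ∃ a : 𝓞 K, a ≠ 0 ∧ (|Algebra.norm ℚ (a : K)| : ℚ) ≤ A ^ finrank ℚ K ∧
        ∀ τ : K →+* ℂ, ‖τ a‖ * max 1 ‖τ θ‖ ^ N ≤ A * r ^ N := by
  classical
  set b := mixedEmbedding.minkowskiBound K 1 with hb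
  have hbt : b ≠ ⊤ := (mixedEmbedding.minkowskiBound_lt_top K 1).ne
  refine ⟨b.toReal + 1, by simp, fun θ r hr hrm N => ?_⟩
  set A := b.toReal + 1 with hA
  have hA1 : 1 ≤ A := by simp [hA]
  let g : InfinitePlace K → ℝ := fun w => A * (r / max 1 (w θ)) ^ N
  have hg : ∀ w, 0 ≤ g w := fun w => by positivity
  have hprod : ∏ w, g w ^ w.mult = A ^ finrank ℚ K := by
    rw [prod_place]
    simp only [g, InfinitePlace.apply, Finset.prod_mul_distrib, Finset.prod_pow,
      Finset.prod_div_distrib, Finset.prod_const, Finset.card_univ, Embeddings.card, ← hrm]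
    rw [div_self (by positivity), one_pow, mul_one]
  obtain ⟨a, ha, hlt⟩ := mixedEmbedding.exists_ne_zero_mem_ringOfIntegers_lt K
    (f := fun w => NNReal.mk (g w) (hg w)) (by
      rw [mixedEmbedding.convexBodyLT_volume]
      have h1 : (∏ w, NNReal.mk (g w) (hg w) ^ w.mult) =
          NNReal.mk A (by positivity) ^ finrank ℚ K := by
        apply NNReal.eq
        push_cast
        exact hprod
      rw [h1, ← ENNReal.coe_mul]
      refine (ENNReal.coe_toNNReal hbt).symm.trans_lt ?_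
      rw [ENNReal.coe_lt_coe, ← NNReal.coe_lt_coe, NNReal.coe_mul, NNReal.coe_pow, NNReal.coe_mk]
      have h2 : (1 : ℝ) ≤ mixedEmbedding.convexBodyLTFactor K := by
        exact_mod_cast mixedEmbedding.one_le_convexBodyLTFactor K
      have h3 : A ≤ A ^ finrank ℚ K := le_self_pow₀ hA1 finrank_pos.ne'
      have h4 : (b.toNNReal : ℝ) < A := by
        change b.toReal < _
        linarith
      nlinarith)
  refine ⟨a, ha, ?_, fun τ => ?_⟩
  · rw [← InfinitePlace.prod_eq_abs_norm, ← hprod]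
    exact Finset.prod_le_prod (fun w _ => by positivity) fun w _ =>
      pow_le_pow_left₀ (by positivity) (hlt w).le _
  · have : InfinitePlace.mk τ a ≤ g (InfinitePlace.mk τ) := (hlt (InfinitePlace.mk τ)).le
    simp only [g, InfinitePlace.apply, div_pow] at this
    rw [← mul_div_assoc, le_div_iff₀ (by positivity)] at this
    exact this

lemma prod_emb {L : Type*} [Field L] [NumberField L] {M : Type*} [CommMonoid M] (θ : L)
    (g : ℂ → M) : ∏ σ : L →+* ℂ, g (σ θ) =
      (((minpoly ℚ θ).aroots ℂ).map g).prod ^ finrank ℚ⟮θ⟯ L := by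
  classical
  have h : IsIntegral ℚ θ := Algebra.IsIntegral.isIntegral θ
  have h1 : ∏ τ : ℚ⟮θ⟯ →ₐ[ℚ] ℂ, g (τ (AdjoinSimple.gen ℚ θ)) =
      (((minpoly ℚ θ).aroots ℂ).map g).prod := by
    refine (Fintype.prod_equiv (algHomAdjoinIntegralEquiv ℚ h)
      (fun τ => g (τ (AdjoinSimple.gen ℚ θ))) (fun x => g x) (fun _ => rfl)).trans ?_
    rw [Finset.prod_mem_multiset _ _ g (fun _ => rfl), Finset.prod_eq_multiset_prod,
      Multiset.toFinset_val, Multiset.dedup_eq_self.mpr]
    exact nodup_roots ((minpoly.irreducible h).separable.map)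
  rw [← h1, Fintype.prod_equiv (RingHom.equivRatAlgHom L ℂ) (fun f => g (f θ))
      (fun φ => g (φ θ)) fun _ => by simp [RingHom.equivRatAlgHom_apply],
    Fintype.prod_equiv (algHomEquivSigma (B := ℚ⟮θ⟯)) (fun σ : L →ₐ[ℚ] ℂ => g (σ θ))
      (fun σ => g (σ.1 (AdjoinSimple.gen ℚ θ))) (fun _ => rfl),
    ← Finset.univ_sigma_univ, Finset.prod_sigma, ← Finset.prod_pow]
  refine Finset.prod_congr rfl fun σ _ => ?_
  let : Algebra ℚ⟮θ⟯ ℂ := σ.toRingHom.toAlgebra
  simp_rw [Finset.prod_const]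
  congr
  exact AlgHom.card ℚ⟮θ⟯ L ℂ

lemma deg_mul {L : Type*} [Field L] [NumberField L] (θ : L) :
    (minpoly ℚ θ).natDegree * finrank ℚ⟮θ⟯ L = finrank ℚ L := by
  rw [← adjoin.finrank (Algebra.IsIntegral.isIntegral θ), finrank_mul_finrank]

/-- The product of `max 1 ‖σ θ‖` is a power of the Mahler measure of the minimal polynomial. -/
lemma prod_max {L : Type*} [Field L] [NumberField L] (θ : L) :
    ∏ σ : L →+* ℂ, max 1 ‖σ θ‖ =
      ((minpoly ℚ θ).map (algebraMap ℚ ℂ)).mahlerMeasure ^ finrank ℚ⟮θ⟯ L := by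
  have h : IsIntegral ℚ θ := Algebra.IsIntegral.isIntegral θ
  rw [prod_emb θ (fun z => max 1 ‖z‖), mahlerMeasure_eq_leadingCoeff_mul_prod_roots,
    ((minpoly.monic h).map _).leadingCoeff, norm_one, one_mul]

lemma prod_X_sub {L : Type*} [Field L] [NumberField L] (θ : L) :
    ∏ σ : L →+* ℂ, (X - C (σ θ)) = ((minpoly ℚ θ).map (algebraMap ℚ ℂ)) ^ finrank ℚ⟮θ⟯ L := by
  have h : IsIntegral ℚ θ := Algebra.IsIntegral.isIntegral θ
  rw [prod_emb θ (fun z => X - C z), prod_multiset_X_sub_C_of_monic_of_roots_card_eq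
    ((minpoly.monic h).map _) IsAlgClosed.card_roots_eq_natDegree]

/-- For integers `α`, `β ≠ 0` of a number field and a primitive integer polynomial `P`
proportional to the minimal polynomial of `α / β`, the Mahler measure of `P` is bounded by the
archimedean sizes of `α` and `β`. -/
lemma mahler_le {L : Type*} [Field L] [NumberField L] {α β : L} (hα : IsIntegral ℤ α)
    (hβ : IsIntegral ℤ β) (hβ0 : β ≠ 0) {P : ℤ[X]} (hP : P.IsPrimitive)
    (hd : P.map (Int.castRingHom ℚ) ∣ minpoly ℚ (α / β)) :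
    (P.map (Int.castRingHom ℂ)).mahlerMeasure ^ finrank ℚ⟮α / β⟯ L ≤
      ∏ σ : L →+* ℂ, max ‖σ β‖ ‖σ α‖ := by
  set e := finrank ℚ⟮α / β⟯ L
  set R : ℂ[X] := ∏ σ : L →+* ℂ, (C (σ β) * X + C (-σ α)) with hR
  have hσ : ∀ σ : L →+* ℂ, σ β ≠ 0 := fun σ => by simpa using hβ0
  have hM : R.mahlerMeasure = ∏ σ : L →+* ℂ, max ‖σ β‖ ‖σ α‖ := by
    rw [hR, Finset.prod_eq_multiset_prod, prod_mahlerMeasure_eq_mahlerMeasure_prod,
      Multiset.map_map, ← Finset.prod_eq_multiset_prod]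
    refine Finset.prod_congr rfl fun σ _ => ?_
    simp only [Function.comp_apply, mahlerMeasure_C_mul_X_add_C (hσ σ), norm_neg]
  set Q : ℚ[X] := C (Algebra.norm ℚ β) * minpoly ℚ (α / β) ^ e with hQ
  have hQR : Q.map (algebraMap ℚ ℂ) = R := by
    rw [hQ, Polynomial.map_mul, Polynomial.map_pow, ← prod_X_sub, map_C,
      Algebra.norm_eq_prod_embeddings, ← Fintype.prod_equiv (RingHom.equivRatAlgHom L ℂ)
        (fun f => f β) (fun φ => φ β) fun _ => by simp [RingHom.equivRatAlgHom_apply],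
      map_prod, ← Finset.prod_mul_distrib]
    refine Finset.prod_congr rfl fun σ _ => ?_
    rw [mul_sub, ← C_mul, map_div₀, mul_div_cancel₀ _ (hσ σ), C_neg, sub_eq_add_neg]
  have hint : ∀ n, IsIntegral ℤ (R.coeff n) := by
    have : R ∈ lifts (algebraMap (integralClosure ℤ ℂ) ℂ) := by
      refine Subsemiring.prod_mem _ fun σ _ => add_mem (mul_mem ?_ (X_mem_lifts _)) ?_
      · exact C'_mem_lifts ⟨⟨σ β, hβ.map σ.toIntAlgHom⟩, rfl⟩
      · exact C'_mem_lifts ⟨⟨-σ α, (hα.map σ.toIntAlgHom).neg⟩, rfl⟩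
    intro n
    obtain ⟨y, hy⟩ := (lifts_iff_coeff_lifts _).1 this n
    rw [← hy]
    exact y.2
  obtain ⟨S, hS⟩ : Q ∈ lifts (Int.castRingHom ℚ) := by
    rw [lifts_iff_coeff_lifts]
    intro n
    have := hint n
    rw [← hQR, coeff_map, isIntegral_algebraMap_iff (algebraMap ℚ ℂ).injective] at this
    exact IsIntegrallyClosed.isIntegral_iff.1 this
  rw [coe_mapRingHom] at hS
  have hPe : (P ^ e).IsPrimitive := by
    induction e with
    | zero => simp
    | succ k ih => rw [pow_succ]; exact ih.mul hP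
  obtain ⟨T, hT⟩ : P ^ e ∣ S := by
    rw [IsPrimitive.Int.dvd_iff_map_cast_dvd_map_cast _ _ hPe, hS, Polynomial.map_pow]
    exact (pow_dvd_pow_of_dvd hd e).mul_left _
  have hSR : S.map (Int.castRingHom ℂ) = R := by
    rw [← hQR, ← hS, Polynomial.map_map]
    congr 1
  have hT0 : T ≠ 0 := by
    rintro rfl
    have : R.mahlerMeasure = 0 := by rw [← hSR, hT]; simp
    rw [hM] at this
    exact (Finset.prod_pos fun σ _ => lt_max_of_lt_left (norm_pos_iff.2 (hσ σ))).ne' this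
  have hpow : ∀ (p : ℂ[X]) (k : ℕ), (p ^ k).mahlerMeasure = p.mahlerMeasure ^ k := by
    intro p k
    induction k with
    | zero => simp
    | succ k ih => rw [pow_succ, mahlerMeasure_mul, ih, pow_succ]
  rw [← hM, ← hSR, hT, Polynomial.map_mul, mahlerMeasure_mul, Polynomial.map_pow, hpow]
  exact le_mul_of_one_le_right (pow_nonneg (mahlerMeasure_nonneg _) _)
    (one_le_mahlerMeasure_of_ne_zero hT0)

end Pool.Agent.MP_670f9a_nt.H6
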