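import Pool.Agent.MP_670f9a_nt.H6.Basic

/-!
From an algebraic integer `θ` to a pair `(θ β, β)` with balanced conjugates.
-/

namespace Pool.Agent.MP_670f9a_nt.H6

open Polynomial IntermediateField NumberField Module

lemma degree_lower {θ β : ℂ} {m : ℕ} (hm : (minpoly ℚ θ).natDegree = m)
    (hβ : m ≤ (minpoly ℚ⟮θ⟯ β).natDegree) (G : MvPolynomial (Fin 2) ℤ) (hG : G ≠ 0)
    (h : MvPolynomial.aeval ![θ * β, β] G = 0) : m ≤ G.totalDegree := by
  by_contra hlt
  push Not at hlt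
  have h1 := linearIndependent_pow (K := ℚ) (AdjoinSimple.gen ℚ θ)
  have h2 := linearIndependent_pow (K := ℚ⟮θ⟯) β
  have h3 := linearIndependent_smul h1 h2
  have hs : ∀ s ∈ G.support, s 0 + s 1 < m := fun s hs => by
    have := MvPolynomial.le_totalDegree hs
    rw [Finsupp.sum_fintype _ _ (fun _ => rfl), Fin.sum_univ_two] at this
    omega
  have hg : minpoly ℚ (AdjoinSimple.gen ℚ θ) = minpoly ℚ θ := minpoly_gen ℚ θ
  let φ : G.support → Fin (minpoly ℚ (AdjoinSimple.gen ℚ θ)).natDegree ×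
      Fin (minpoly ℚ⟮θ⟯ β).natDegree := fun s =>
    (⟨s.1 0, by rw [hg, hm]; have := hs _ s.2; omega⟩,
      ⟨s.1 0 + s.1 1, (hs _ s.2).trans_le hβ⟩)
  have hφ : Function.Injective φ := by
    intro s t hst
    simp only [φ, Prod.mk.injEq, Fin.mk.injEq] at hst
    ext i
    fin_cases i
    · exact hst.1
    · have := hst.1
      have := hst.2
      change s.1 1 = t.1 1
      omega
  have h4 := Fintype.linearIndependent_iff.1 (h3.comp φ hφ) 
    (fun s => ((G.coeff s.1 : ℤ) : ℚ)) (by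
    rw [← h, MvPolynomial.aeval_def, MvPolynomial.eval₂_eq', ← Finset.sum_coe_sort G.support]
    refine Finset.sum_congr rfl fun s _ => ?_
    simp only [φ, Function.comp_apply, Fin.prod_univ_two, Matrix.cons_val_zero,
      Matrix.cons_val_one, Algebra.smul_def, map_pow, AdjoinSimple.algebraMap_gen, eq_intCast,
      map_intCast]
    ring)
  obtain ⟨s, hs'⟩ := MvPolynomial.support_nonempty.2 hG
  exact MvPolynomial.mem_support_iff.1 hs' (by exact_mod_cast h4 ⟨s, hs'⟩)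

lemma degree_upper {θ β : ℂ} (hθ : IsIntegral ℤ θ) (hβ : β ≠ 0) :
    ∃ G : MvPolynomial (Fin 2) ℤ, G ≠ 0 ∧ G.totalDegree ≤ (minpoly ℚ θ).natDegree ∧
      MvPolynomial.aeval ![θ * β, β] G = 0 := by
  have hd : (minpoly ℚ θ).natDegree = (minpoly ℤ θ).natDegree := by
    rw [minpoly.isIntegrallyClosed_eq_field_fractions' ℚ hθ, (minpoly.monic hθ).natDegree_map]
  refine ⟨(minpoly ℤ θ).homogenize (minpoly ℤ θ).natDegree, ?_, ?_, ?_⟩
  · rw [Ne, homogenize_eq_zero_iff le_rfl]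
    exact minpoly.ne_zero hθ
  · rw [hd]
    exact (isHomogeneous_homogenize _).totalDegree_le
  · rw [MvPolynomial.aeval_def, ← MvPolynomial.eval_map, ← homogenize_map,
      eval_homogenize natDegree_map_le _ (by simpa using hβ)]
    simp only [Matrix.cons_val_zero, Matrix.cons_val_one, mul_div_cancel_right₀ _ hβ, eval_map,
      ← aeval_def, minpoly.aeval, zero_mul]

lemma construct {θ : ℂ} (hθ : IsIntegral ℤ θ) (h1 : 1 < ‖θ‖) {ε : ℝ} (hε : 0 < ε) :
    ∃ β : ℂ, IsIntegral ℤ β ∧ β ≠ 0 ∧ (∀ a b : ℤ, (θ * β) ^ a * β ^ b = 1 → a = 0 ∧ b = 0) ∧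
      (minpoly ℚ θ).natDegree ≤ (minpoly ℚ⟮θ⟯ β).natDegree ∧
      ∀ (L : IntermediateField ℚ ℂ) (hL : θ ∈ L) (hL' : β ∈ L) (σ : L →+* ℂ),
        Real.log (‖σ ⟨β, hL'⟩‖ * max 1 ‖σ ⟨θ, hL⟩‖) ≤
          Real.log ((minpoly ℚ θ).map (algebraMap ℚ ℂ)).mahlerMeasure /
            (minpoly ℚ θ).natDegree + ε := by
  have hq : IsIntegral ℚ θ := hθ.tower_top
  let K := ℚ⟮θ⟯
  have : NumberField K := { to_finiteDimensional := adjoin.finiteDimensional hq }
  let t : K := AdjoinSimple.gen ℚ θ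
  have ht : IsIntegral ℤ t := coe_isIntegral_iff.mp hθ
  have hθ0 : θ ≠ 0 := by rintro rfl; norm_num at h1
  have ht0 : t ≠ 0 := fun h => hθ0 (congrArg Subtype.val h)
  set m := (minpoly ℚ θ).natDegree with hm
  have hm0 : 0 < m := minpoly.natDegree_pos hq
  set M := ((minpoly ℚ θ).map (algebraMap ℚ ℂ)).mahlerMeasure with hM
  have hM0 : 0 < M := mahlerMeasure_pos_of_ne_zero ((minpoly.monic hq).map _).ne_zero
  set r := Real.exp (Real.log M / m) with hr
  have hrm : r ^ m = M := by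
    rw [hr, ← Real.exp_nat_mul, mul_div_cancel₀ _ (by positivity), Real.exp_log hM0]
  obtain ⟨A, hA1, hA⟩ := balance (K := K)
  have hA' := hA t r (by positivity) (by
    rw [prod_max, ← deg_mul t, show minpoly ℚ t = minpoly ℚ θ from minpoly_gen ℚ θ, pow_mul, hrm])
  obtain ⟨u, hu⟩ := IsIntegrallyClosed.isIntegral_iff.1 (Algebra.isIntegral_norm ℚ ht)
  have hu0 : u ≠ 0 := by
    rintro rfl
    exact ht0 (Algebra.norm_eq_zero_iff.1 (by rw [← hu, map_zero]))
  obtain ⟨p, hpu, hp⟩ := Nat.exists_infinite_primes (u.natAbs + 1)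
  have := Fact.mk hp
  have hp1 : (1 : ℝ) ≤ p := by exact_mod_cast hp.one_lt.le
  set B : ℝ := p * A with hB
  have hB1 : 1 ≤ B := one_le_mul_of_one_le_of_one_le hp1 hA1
  obtain ⟨N, hN, hNp⟩ := Nat.exists_infinite_primes
    (max m (max ⌈B ^ finrank ℚ K⌉₊ ⌈Real.log B / ε⌉₊))
  have hN1 : m ≤ N := (le_max_left _ _).trans hN
  have hN2 : B ^ finrank ℚ K ≤ N :=
    Nat.ceil_le.1 (((le_max_left _ _).trans (le_max_right _ _)).trans hN)
  have hN3 : Real.log B / ε ≤ N :=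
    Nat.ceil_le.1 (((le_max_right _ _).trans (le_max_right _ _)).trans hN)
  have hN0 : (0 : ℝ) < N := by exact_mod_cast hNp.pos
  obtain ⟨a, ha0, haN, ha⟩ := hA' N
  have hai : IsIntegral ℤ (a : K) := a.2
  have ha0' : (a : K) ≠ 0 := RingOfIntegers.coe_ne_zero_iff.2 ha0
  obtain ⟨v, hv⟩ := IsIntegrallyClosed.isIntegral_iff.1 (Algebra.isIntegral_norm ℚ hai)
  have hv0 : v ≠ 0 := by
    rintro rfl
    exact ha0' (Algebra.norm_eq_zero_iff.1 (by rw [← hv, map_zero]))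
  set γ : K := (p : K) * a with hγ
  have hγ0 : γ ≠ 0 := mul_ne_zero (by exact_mod_cast hp.ne_zero) ha0'
  have hγi : IsIntegral ℤ γ := (isIntegral_natCast p).mul hai
  have hγN : Algebra.norm ℚ γ = ((p ^ finrank ℚ K * v : ℤ) : ℚ) := by
    rw [hγ, map_mul, ← hv, ← map_natCast (algebraMap ℚ K), Algebra.norm_algebraMap]
    simp
  have hpd : (p : ℤ) ∣ p ^ finrank ℚ K * v :=
    (dvd_pow_self _ finrank_pos.ne').mul_right _
  have hz0 : ((p : ℤ) ^ finrank ℚ K * v) ≠ 0 :=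
    mul_ne_zero (pow_ne_zero _ (by exact_mod_cast hp.ne_zero)) hv0
  have hirr : Irreducible (X ^ N - C γ) := by
    refine X_pow_sub_C_irreducible_of_prime hNp fun δ hδ => ?_
    have hδi : IsIntegral ℤ δ := IsIntegral.of_pow hNp.pos (hδ ▸ hγi)
    obtain ⟨z, hz⟩ := IsIntegrallyClosed.isIntegral_iff.1 (Algebra.isIntegral_norm ℚ hδi)
    have h2 : z ^ N = p ^ finrank ℚ K * v := by
      have := congrArg (Algebra.norm ℚ) hδ
      rw [map_pow, ← hz, hγN, eq_intCast, ← Int.cast_pow] at this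
      exact Int.cast_injective this
    have h3 : (p : ℤ) ∣ z := (Nat.prime_iff_prime_int.1 hp).dvd_of_dvd_pow (h2 ▸ hpd)
    have h4 : z ≠ 0 := by
      rintro rfl
      rw [zero_pow hNp.ne_zero] at h2
      exact hz0 h2.symm
    have h5 : (2 : ℝ) ≤ |(z : ℝ)| := by
      have := Int.le_of_dvd (abs_pos.2 h4) ((dvd_abs _ _).2 h3)
      have h2p := hp.two_le
      exact_mod_cast (by omega : (2 : ℤ) ≤ |z|)
    have h6 : |(z : ℝ)| ^ N ≤ B ^ finrank ℚ K := by
      rw [← hv] at haN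
      have h7 : |(v : ℝ)| ≤ A ^ finrank ℚ K := by simpa using haN
      rw [← abs_pow, show (z : ℝ) ^ N = p ^ finrank ℚ K * v by exact_mod_cast h2, abs_mul, hB,
        mul_pow, abs_of_nonneg (by positivity)]
      gcongr
    have h8 : (N : ℝ) < 2 ^ N := by exact_mod_cast Nat.lt_two_pow_self
    have h9 : (2 : ℝ) ^ N ≤ |(z : ℝ)| ^ N := by gcongr
    linarith
  obtain ⟨β, hβ⟩ := IsAlgClosed.exists_pow_nat_eq (γ : ℂ) hNp.pos
  have hγc : (γ : ℂ) ≠ 0 := by simpa using hγ0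
  have hβ0 : β ≠ 0 := by
    rintro rfl
    rw [zero_pow hNp.ne_zero] at hβ
    exact hγc hβ.symm
  refine ⟨β, IsIntegral.of_pow hNp.pos (hβ ▸ coe_isIntegral_iff.mpr hγi), hβ0, fun a b hab => ?_,
    ?_, fun L hL hL' σ => ?_⟩
  · have h2 : t ^ (a * N) * γ ^ (a + b) = 1 := by
      apply (algebraMap K ℂ).injective
      have : ((θ * β) ^ a * β ^ b) ^ N = 1 := by rw [hab, one_pow]
      rw [map_mul, map_zpow₀, map_zpow₀, map_one, show algebraMap K ℂ γ = β ^ N from hβ.symm,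
        ← this, mul_zpow, mul_assoc, ← zpow_add₀ hβ0, mul_pow, ← zpow_natCast,
        ← zpow_natCast, ← zpow_natCast, ← zpow_mul, ← zpow_mul, ← zpow_mul, mul_comm (a + b)]
      rfl
    have h3 := congrArg (fun x => Rat.AbsoluteValue.padic p (Algebra.norm ℚ x)) h2
    have hn : ∀ (x : K) (k : ℤ), Algebra.norm ℚ (x ^ k) = Algebra.norm ℚ x ^ k := fun x k =>
      Algebra.norm_zpow x k
    simp only [map_mul, hn, map_zpow₀, map_one] at h3
    have h4 : Rat.AbsoluteValue.padic p (Algebra.norm ℚ t) = 1 := by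
      rw [← hu, Rat.AbsoluteValue.padic_eq_padicNorm, eq_intCast,
        (padicNorm.int_eq_one_iff u).2, Rat.cast_one]
      intro hd
      have := Nat.le_of_dvd (Int.natAbs_pos.2 hu0) (Int.natCast_dvd.1 hd)
      omega
    have h5 : Rat.AbsoluteValue.padic p (Algebra.norm ℚ γ) < 1 := by
      rw [hγN, Rat.AbsoluteValue.padic_eq_padicNorm]
      exact_mod_cast (padicNorm.int_lt_one_iff _).2 hpd
    rw [h4, one_zpow, one_mul, zpow_eq_one_iff_right₀ (apply_nonneg _ _) h5.ne] at h3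
    rw [mul_zpow, mul_assoc, ← zpow_add₀ hβ0, h3, zpow_zero, mul_one] at hab
    have h6 := congrArg norm hab
    rw [norm_zpow, norm_one, zpow_eq_one_iff_right₀ (norm_nonneg _) h1.ne'] at h6
    omega
  · have : X ^ N - C γ = minpoly K β := minpoly.eq_of_irreducible_of_monic hirr
      (by simp [hβ]) (monic_X_pow_sub_C _ hNp.ne_zero)
    change m ≤ (minpoly K β).natDegree
    rw [← this, natDegree_X_pow_sub_C]
    exact hN1
  · have hKL : K ≤ L := adjoin_simple_le_iff.2 hL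
    let τ : K →+* ℂ := σ.comp (inclusion hKL).toRingHom
    have h2 := ha τ
    have h3 : τ t = σ ⟨θ, hL⟩ := rfl
    have h4 : σ ⟨β, hL'⟩ ^ N = τ γ := by
      rw [← map_pow]
      exact congrArg σ (Subtype.ext hβ)
    have h5 : (‖σ ⟨β, hL'⟩‖ * max 1 ‖σ ⟨θ, hL⟩‖) ^ N ≤ B * r ^ N := by
      rw [mul_pow, ← norm_pow, h4, hγ, map_mul, norm_mul, map_natCast, Complex.norm_natCast,
        ← h3, hB, mul_assoc, mul_assoc]
      gcongr
    have h6 : 0 < ‖σ ⟨β, hL'⟩‖ * max 1 ‖σ ⟨θ, hL⟩‖ := by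
      have : σ ⟨β, hL'⟩ ≠ 0 := (map_ne_zero σ).2 fun h => hβ0 (congrArg Subtype.val h)
      positivity
    have h7 := Real.log_le_log (by positivity) h5
    rw [Real.log_pow, Real.log_mul (x := B) (by positivity) (by positivity), Real.log_pow, hr,
      Real.log_exp] at h7
    rw [div_le_iff₀ hε] at hN3
    refine le_of_mul_le_mul_left ?_ hN0
    linarith

end Pool.Agent.MP_670f9a_nt.H6
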